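import Mathlib

set_option autoImplicit false

/-!
# Anticommutative 3-Engel rings: common definitions (MP_1664c7_al)
-/

namespace Pool.Agent.H66.Eng

/-- Anticommutative 3-Engel (nonassociative) rings without 2- and 3-torsion. -/
structure E3 (A : Type*) [NonUnitalNonAssocRing A] : Prop where
  sq : ∀ x : A, x * x = 0
  eng : ∀ x y : A, ((x * y) * y) * y = 0
  h2 : ∀ a : A, (2 : ℕ) • a = 0 → a = 0
  h3 : ∀ a : A, (3 : ℕ) • a = 0 → a = 0

/-- `CP c n z`: the element `z` is a product (any arrangement of parentheses) having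
at least `n` factors equal to `c`. -/
inductive CP {A : Type*} [Mul A] (c : A) : ℕ → A → Prop
  | elt (x : A) : CP c 0 x
  | gen : CP c 1 c
  | mul {m n : ℕ} {x y : A} : CP c m x → CP c n y → CP c (m + n) (x * y)

/-- `c` is a sandwich: `R_c ^ 2 = 0`. -/
def Sandwich {A : Type*} [NonUnitalNonAssocRing A] (c : A) : Prop :=
  ∀ x : A, (x * c) * c = 0

/-- `c` is a thick sandwich: `R_c ^ 2 = 0` and `(A c)(A c) = 0`. -/
def Thick {A : Type*} [NonUnitalNonAssocRing A] (c : A) : Prop :=
  Sandwich c ∧ ∀ x y : A, (x * c) * (y * c) = 0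

section targets
variable {A : Type*} [NonUnitalNonAssocRing A]

/-- Target (T). -/
def TargetT (A : Type*) [NonUnitalNonAssocRing A] : Prop :=
  ∀ c : A, Thick c → ∀ z : A, CP c 3 z → z = 0

/-- Target (I). -/
def TargetI (A : Type*) [NonUnitalNonAssocRing A] : Prop :=
  ∀ c : A, Sandwich c → ∀ x y : A, Thick ((x * c) * (y * c))

/-- Target (II). -/
def TargetII (A : Type*) [NonUnitalNonAssocRing A] : Prop :=
  (∀ c : A, Sandwich c → c = 0) → ∀ a : A, a = 0

end targets

end Pool.Agent.H66.Eng
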