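import Pool.Agent.H66.Eng.Assembly

set_option autoImplicit false

universe u

namespace Pool.Agent.H66.CharThree

open Pool.Agent.H66.Eng (IsProduct IsNilpotentAlg)

/-!
# The counterexample in characteristic three (helper1; MP_1664c7_al)
-/

/-! ### Hurwitz series (formal divided power series) -/

/-- Shift of a sequence. -/
def sh {F : Type u} (f : ℕ → F) : ℕ → F := fun k => f (k + 1)

/-- Hurwitz product: `(f g)_0 = f_0 g_0` and `(f g)' = f' g + f g'`. -/
def hmul {F : Type u} [CommRing F] : (ℕ → F) → (ℕ → F) → ℕ → F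
  | f, g, 0 => f 0 * g 0
  | f, g, n + 1 => hmul (sh f) g n + hmul f (sh g) n

variable {F : Type u} [CommRing F]

theorem sh_add (f g : ℕ → F) : sh (f + g) = sh f + sh g := rfl

theorem sh_hmul (f g : ℕ → F) : sh (hmul f g) = hmul (sh f) g + hmul f (sh g) := rfl

theorem hmul_comm (f g : ℕ → F) : hmul f g = hmul g f := by
  funext n
  induction n generalizing f g with
  | zero => simp [hmul, mul_comm]
  | succ n ih => simp only [hmul]; rw [ih (sh f) g, ih f (sh g), add_comm]

theorem hmul_add (f g h : ℕ → F) : hmul f (g + h) = hmul f g + hmul f h := by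
  funext n
  induction n generalizing f g h with
  | zero => simp [hmul, mul_add]
  | succ n ih =>
    simp only [hmul, Pi.add_apply, sh_add]
    rw [ih (sh f) g h, ih f (sh g) (sh h)]
    simp only [Pi.add_apply]
    ring

theorem add_hmul (f g h : ℕ → F) : hmul (f + g) h = hmul f h + hmul g h := by
  rw [hmul_comm, hmul_add, hmul_comm h f, hmul_comm h g]

theorem hmul_assoc (f g h : ℕ → F) : hmul (hmul f g) h = hmul f (hmul g h) := by
  funext n
  induction n generalizing f g h with
  | zero => simp [hmul, mul_assoc]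
  | succ n ih =>
    simp only [hmul]
    rw [sh_hmul, sh_hmul, add_hmul, hmul_add]
    simp only [Pi.add_apply]
    rw [ih, ih, ih]
    ring

/-- The unit. -/
def hone (F : Type u) [CommRing F] : ℕ → F := fun n => if n = 0 then 1 else 0

theorem sh_hone : sh (hone F) = 0 := by
  funext n; simp [sh, hone]

theorem hmul_zero (f : ℕ → F) : hmul f 0 = 0 := by
  have h := hmul_add f 0 0
  simpa using h

theorem zero_hmul (f : ℕ → F) : hmul 0 f = 0 := by
  rw [hmul_comm, hmul_zero]

theorem hone_hmul (f : ℕ → F) : hmul (hone F) f = f := by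
  funext n
  induction n generalizing f with
  | zero => simp [hmul, hone]
  | succ n ih =>
    simp only [hmul]
    rw [sh_hone, zero_hmul, ih]
    simp [sh]

theorem hmul_hone (f : ℕ → F) : hmul f (hone F) = f := by
  rw [hmul_comm, hone_hmul]

/-- The type of Hurwitz series over `F`. -/
def Hur (F : Type u) : Type u := ℕ → F

instance : AddCommGroup (Hur F) := inferInstanceAs (AddCommGroup (ℕ → F))

instance : CommRing (Hur F) :=
  { (inferInstance : AddCommGroup (Hur F)) with
    mul := hmul
    one := hone F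
    left_distrib := hmul_add
    right_distrib := add_hmul
    zero_mul := zero_hmul
    mul_zero := hmul_zero
    mul_assoc := hmul_assoc
    one_mul := hone_hmul
    mul_one := hmul_hone
    mul_comm := hmul_comm }

/-- Derivation of Hurwitz series. -/
def D (f : Hur F) : Hur F := sh f

/-- Integration of Hurwitz series (without constant term). -/
def I (f : Hur F) : Hur F := fun n => Nat.casesOn n 0 (fun k => f k)

/-- constant term -/
def ev (f : Hur F) : F := f 0

theorem D_I (f : Hur F) : D (I f) = f := rfl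
theorem ev_I (f : Hur F) : ev (I f) = 0 := rfl
theorem D_add (f g : Hur F) : D (f + g) = D f + D g := rfl
theorem D_sub (f g : Hur F) : D (f - g) = D f - D g := rfl
theorem D_mul (f g : Hur F) : D (f * g) = D f * g + f * D g := rfl
theorem ev_add (f g : Hur F) : ev (f + g) = ev f + ev g := rfl
theorem ev_sub (f g : Hur F) : ev (f - g) = ev f - ev g := rfl
theorem ev_mul (f g : Hur F) : ev (f * g) = ev f * ev g := rfl

theorem eq_zero_of (f : Hur F) (h0 : ev f = 0) (hD : D f = 0) : f = 0 := by
  funext n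
  cases n with
  | zero => exact h0
  | succ n => exact congrFun hD n

theorem I_add (f g : Hur F) : I (f + g) = I f + I g := by
  funext n
  cases n with
  | zero => change (0 : F) = 0 + 0; simp
  | succ n => rfl

theorem I_neg (f : Hur F) : I (-f) = - I f := by
  funext n
  cases n with
  | zero => change (0 : F) = -0; simp
  | succ n => rfl

/-- Scalar action on Hurwitz series. -/
instance : Module F (Hur F) := inferInstanceAs (Module F (ℕ → F))

theorem I_smul (r : F) (f : Hur F) : I (r • f) = r • I f := by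
  funext n
  cases n with
  | zero => change (0 : F) = r • (0 : F); simp
  | succ n => rfl

theorem smul_hmul (r : F) (f g : ℕ → F) : hmul (r • f) g = r • hmul f g := by
  funext n
  induction n generalizing f g with
  | zero => simp [hmul, mul_assoc]
  | succ n ih =>
    simp only [hmul, Pi.smul_apply]
    have h1 : sh (r • f) = r • sh f := rfl
    rw [h1, ih, ih]
    simp [smul_eq_mul, mul_add]

theorem smul_mul' (r : F) (f g : Hur F) : (r • f) * g = r • (f * g) := smul_hmul r f g

theorem mul_smul' (r : F) (f g : Hur F) : f * (r • g) = r • (f * g) := by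
  rw [mul_comm, smul_mul', mul_comm]

/-! ### The algebra -/

/-- The underlying space: triples `(u, v, ω)` of Hurwitz series. -/
@[ext] structure Alg (F : Type u) where
  u : Hur F
  v : Hur F
  o : Hur F

/-- triples as a product -/
def toProd (x : Alg F) : Hur F × Hur F × Hur F := (x.u, x.v, x.o)

omit [CommRing F] in
theorem toProd_inj : Function.Injective (toProd : Alg F → Hur F × Hur F × Hur F) := by
  intro x y h
  simp only [toProd, Prod.mk.injEq] at h
  exact Alg.ext h.1 h.2.1 h.2.2

instance : Zero (Alg F) := ⟨⟨0, 0, 0⟩⟩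
instance : Add (Alg F) := ⟨fun x y => ⟨x.u + y.u, x.v + y.v, x.o + y.o⟩⟩
instance : Neg (Alg F) := ⟨fun x => ⟨-x.u, -x.v, -x.o⟩⟩
instance : Sub (Alg F) := ⟨fun x y => ⟨x.u - y.u, x.v - y.v, x.o - y.o⟩⟩
instance : SMul ℕ (Alg F) := ⟨fun n x => ⟨n • x.u, n • x.v, n • x.o⟩⟩
instance : SMul ℤ (Alg F) := ⟨fun n x => ⟨n • x.u, n • x.v, n • x.o⟩⟩
instance : SMul F (Alg F) := ⟨fun n x => ⟨n • x.u, n • x.v, n • x.o⟩⟩

instance : AddCommGroup (Alg F) :=
  toProd_inj.addCommGroup toProd rfl (fun _ _ => rfl) (fun _ => rfl) (fun _ _ => rfl)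
    (fun _ _ => rfl) (fun _ _ => rfl)

/-- `toProd` as an additive hom -/
def toProdHom : Alg F →+ Hur F × Hur F × Hur F where
  toFun := toProd
  map_zero' := rfl
  map_add' := fun _ _ => rfl

instance : Module F (Alg F) :=
  toProd_inj.module F (toProdHom : Alg F →+ _) (fun _ _ => rfl)

/-- The product: with `w = ∫ω`, `c = ∫γ`,
`(u,v,ω)(a,b,γ) = (wa - cu, wb - cv, va - ub + wγ - ωc)`. -/
instance : Mul (Alg F) :=
  ⟨fun x y => ⟨I x.o * y.u - I y.o * x.u, I x.o * y.v - I y.o * x.v,
    x.v * y.u - x.u * y.v + I x.o * y.o - x.o * I y.o⟩⟩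

theorem mul_u (x y : Alg F) : (x * y).u = I x.o * y.u - I y.o * x.u := rfl
theorem mul_v (x y : Alg F) : (x * y).v = I x.o * y.v - I y.o * x.v := rfl
theorem mul_o (x y : Alg F) :
    (x * y).o = x.v * y.u - x.u * y.v + I x.o * y.o - x.o * I y.o := rfl
theorem add_u (x y : Alg F) : (x + y).u = x.u + y.u := rfl
theorem add_v (x y : Alg F) : (x + y).v = x.v + y.v := rfl
theorem add_o (x y : Alg F) : (x + y).o = x.o + y.o := rfl
theorem zero_u : (0 : Alg F).u = 0 := rfl
theorem zero_v : (0 : Alg F).v = 0 := rfl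
theorem zero_o : (0 : Alg F).o = 0 := rfl
theorem smul_u (r : F) (x : Alg F) : (r • x).u = r • x.u := rfl
theorem smul_v (r : F) (x : Alg F) : (r • x).v = r • x.v := rfl
theorem smul_o (r : F) (x : Alg F) : (r • x).o = r • x.o := rfl

theorem I_zero : I (0 : Hur F) = 0 := by
  funext n
  cases n <;> rfl

instance : NonUnitalNonAssocRing (Alg F) :=
  { (inferInstance : AddCommGroup (Alg F)) with
    mul := (· * ·)
    left_distrib := by
      intro x y z
      apply Alg.ext <;>
      simp only [mul_u, mul_v, mul_o, add_u, add_v, add_o, I_add] <;> ring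
    right_distrib := by
      intro x y z
      apply Alg.ext <;>
      simp only [mul_u, mul_v, mul_o, add_u, add_v, add_o, I_add] <;> ring
    zero_mul := by
      intro x
      apply Alg.ext <;>
      simp only [mul_u, mul_v, mul_o, zero_u, zero_v, zero_o, I_zero] <;> ring
    mul_zero := by
      intro x
      apply Alg.ext <;>
      simp only [mul_u, mul_v, mul_o, zero_u, zero_v, zero_o, I_zero] <;> ring }

instance : IsScalarTower F (Alg F) (Alg F) :=
  ⟨fun r x y => by
    change (r • x) * y = r • (x * y)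
    apply Alg.ext <;>
    simp only [mul_u, mul_v, mul_o, smul_u, smul_v, smul_o, I_smul, smul_mul', mul_smul',
      smul_sub, smul_add]⟩

instance : SMulCommClass F (Alg F) (Alg F) :=
  ⟨fun r x y => by
    change r • (x * y) = x * (r • y)
    apply Alg.ext <;>
    simp only [mul_u, mul_v, mul_o, smul_u, smul_v, smul_o, I_smul, smul_mul', mul_smul',
      smul_sub, smul_add]⟩

theorem sq_zero (x : Alg F) : x * x = 0 := by
  apply Alg.ext <;>
  simp only [mul_u, mul_v, mul_o, zero_u, zero_v, zero_o] <;> ring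

theorem three_eq_zero [CharP F 3] : (3 : Hur F) = 0 := by
  have h3 : (3 : F) = 0 := by
    have := CharP.cast_eq_zero F 3
    exact_mod_cast this
  have h : (3 : Hur F) = (3 : F) • (1 : Hur F) := by
    have e : (3 : Hur F) = 1 + 1 + 1 := by norm_num
    rw [e]
    have e2 : (3 : F) = 1 + 1 + 1 := by norm_num
    rw [e2, add_smul, add_smul, one_smul]
  rw [h, h3, zero_smul]

theorem cube_zero [CharP F 3] (γ : Hur F) : (I γ) ^ 3 = 0 := by
  apply eq_zero_of
  · have : (I γ) ^ 3 = I γ * (I γ * I γ) := by ring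
    rw [this, ev_mul, ev_I, zero_mul]
  · have : (I γ) ^ 3 = I γ * (I γ * I γ) := by ring
    rw [this]
    simp only [D_mul, D_I]
    have h3 := three_eq_zero (F := F)
    linear_combination (γ * I γ * I γ) * h3

theorem engel [CharP F 3] (x y : Alg F) : ((x * y) * y) * y = 0 := by
  obtain ⟨u, v, ω⟩ := x
  obtain ⟨a, b, γ⟩ := y
  have h3 := three_eq_zero (F := F)
  set c := I γ with hc
  set w := I ω with hw
  have hc3 : c ^ 3 = 0 := cube_zero γ
  set x1 : Alg F := (⟨u, v, ω⟩ : Alg F) * ⟨a, b, γ⟩ with hx1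
  have u1 : x1.u = w * a - c * u := rfl
  have v1 : x1.v = w * b - c * v := rfl
  have o1 : x1.o = v * a - u * b + w * γ - ω * c := rfl
  set w1 := I x1.o with hw1
  set x2 : Alg F := x1 * ⟨a, b, γ⟩ with hx2
  have u2 : x2.u = w1 * a - c * x1.u := rfl
  have v2 : x2.v = w1 * b - c * x1.v := rfl
  have o2 : x2.o = x1.v * a - x1.u * b + w1 * γ - x1.o * c := rfl
  set w2 := I x2.o with hw2
  have key : w2 - c * w1 + c * c * w = 0 := by
    apply eq_zero_of
    · rw [ev_add, ev_sub, ev_mul, ev_mul, ev_mul, hw2, hw1, hw, ev_I, ev_I, ev_I]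
      ring
    · simp only [D_add, D_sub, D_mul]
      rw [hw2, hw1, hw, hc, D_I, D_I, D_I, D_I, ← hc, ← hw, ← hw1, o2, o1, u1, v1]
      linear_combination (c * c * ω - c * (v * a - u * b)) * h3
  apply Alg.ext
  · rw [mul_u]
    change w2 * a - c * x2.u = 0
    rw [u2, u1]
    linear_combination a * key - u * hc3
  · rw [mul_v]
    change w2 * b - c * x2.v = 0
    rw [v2, v1]
    linear_combination b * key - v * hc3
  · rw [mul_o]
    change x2.v * a - x2.u * b + w2 * γ - x2.o * c = 0
    rw [u2, v2, o2, u1, v1, o1]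
    linear_combination γ * key - ω * hc3 + (c * c * (v * a - u * b)) * h3

/-! ### The two generators -/

/-- the divided power `t^(n)` -/
def t (F : Type u) [CommRing F] (n : ℕ) : Hur F := fun k => if k = n then 1 else 0

theorem t_zero : t F 0 = 1 := rfl

theorem I_t (n : ℕ) : I (t F n) = t F (n + 1) := by
  funext k
  cases k with
  | zero => simp [I, t]
  | succ k => simp [I, t]

/-- first generator -/
def e0 (F : Type u) [CommRing F] : Alg F := ⟨1, 0, 0⟩
/-- second generator -/
def f0 (F : Type u) [CommRing F] : Alg F := ⟨0, 1, 0⟩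

theorem step1 (n : ℕ) : (⟨0, t F n, 0⟩ : Alg F) * e0 F = ⟨0, 0, t F n⟩ := by
  apply Alg.ext <;>
  simp only [mul_u, mul_v, mul_o, e0, I_zero] <;> ring

theorem step2 (n : ℕ) : (⟨0, 0, t F n⟩ : Alg F) * f0 F = ⟨0, t F (n + 1), 0⟩ := by
  apply Alg.ext <;>
  simp only [mul_u, mul_v, mul_o, f0, I_zero, I_t] <;> ring

/-- alternating left-normed product `f0 e0 f0 e0 ⋯` with `n + 1` factors, inside any
subalgebra containing the two generators -/
def zz {B : Type u} [Mul B] (x y : B) : ℕ → B
  | 0 => y
  | n + 1 => if n % 2 = 0 then zz x y n * x else zz x y n * y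

theorem zz_isProduct {B : Type u} [Mul B] (x y : B) (n : ℕ) : IsProduct (n + 1) (zz x y n) := by
  induction n with
  | zero => exact IsProduct.single y
  | succ n ih =>
    unfold zz
    split_ifs
    · exact IsProduct.mul ih (IsProduct.single x)
    · exact IsProduct.mul ih (IsProduct.single y)

theorem zz_val (m : ℕ) : zz (e0 F) (f0 F) (2 * m) = ⟨0, t F m, 0⟩ ∧
    zz (e0 F) (f0 F) (2 * m + 1) = ⟨0, 0, t F m⟩ := by
  induction m with
  | zero =>
    constructor
    · rfl
    · change (if 0 % 2 = 0 then f0 F * e0 F else f0 F * f0 F) = _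
      simp only [Nat.zero_mod, if_true]
      exact step1 0
  | succ m ih =>
    have h1 : zz (e0 F) (f0 F) (2 * (m + 1)) = ⟨0, t F (m + 1), 0⟩ := by
      have : 2 * (m + 1) = (2 * m + 1) + 1 := by ring
      rw [this]
      change (if (2 * m + 1) % 2 = 0 then zz (e0 F) (f0 F) (2 * m + 1) * e0 F
        else zz (e0 F) (f0 F) (2 * m + 1) * f0 F) = _
      have h2 : (2 * m + 1) % 2 ≠ 0 := by omega
      rw [if_neg h2, ih.2, step2]
    refine ⟨h1, ?_⟩
    change (if (2 * (m + 1)) % 2 = 0 then zz (e0 F) (f0 F) (2 * (m + 1)) * e0 F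
        else zz (e0 F) (f0 F) (2 * (m + 1)) * f0 F) = _
    have h2 : (2 * (m + 1)) % 2 = 0 := by omega
    rw [if_pos h2, h1, step1]

theorem t_ne_zero [Nontrivial F] (n : ℕ) : t F n ≠ 0 := by
  intro h
  have := congrFun h n
  simp [t] at this
  exact one_ne_zero this

theorem zz_ne_zero [Nontrivial F] (n : ℕ) : zz (e0 F) (f0 F) n ≠ 0 := by
  intro h
  rcases Nat.even_or_odd' n with ⟨m, hm | hm⟩
  · rw [hm, (zz_val m).1] at h
    exact t_ne_zero m (congrArg Alg.v h)
  · rw [hm, (zz_val m).2] at h
    exact t_ne_zero m (congrArg Alg.o h)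

theorem zz_map {A B : Type u} [Mul A] [Mul B] (φ : A → B) (hφ : ∀ x y, φ (x * y) = φ x * φ y)
    (x y : A) (n : ℕ) : φ (zz x y n) = zz (φ x) (φ y) n := by
  induction n with
  | zero => rfl
  | succ n ih =>
    unfold zz
    split_ifs
    · rw [hφ, ih]
    · rw [hφ, ih]

/-- **Theorem.** Over every field of characteristic three there is an anticommutative
3-Engel algebra with two elements generating a non-nilpotent subalgebra. -/
theorem char_three (F : Type u) [Field F] [CharP F 3] :
    ∃ (A : Type u) (_ : NonUnitalNonAssocRing A) (_ : Module F A)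
      (_ : IsScalarTower F A A) (_ : SMulCommClass F A A),
      (∀ x : A, x * x = 0) ∧ (∀ x y : A, ((x * y) * y) * y = 0) ∧
      ∃ x y : A, ¬ IsNilpotentAlg (NonUnitalAlgebra.adjoin F ({x, y} : Set A)) := by
  refine ⟨Alg F, inferInstance, inferInstance, inferInstance, inferInstance, sq_zero, engel,
    e0 F, f0 F, ?_⟩
  rintro ⟨N, hN, h⟩
  set B := NonUnitalAlgebra.adjoin F ({e0 F, f0 F} : Set (Alg F)) with hB
  have he : e0 F ∈ B := NonUnitalAlgebra.subset_adjoin F (by simp)
  have hf : f0 F ∈ B := NonUnitalAlgebra.subset_adjoin F (by simp)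
  obtain ⟨n, rfl⟩ : ∃ n, N = n + 1 := ⟨N - 1, by omega⟩
  have h1 := h (zz (⟨e0 F, he⟩ : B) ⟨f0 F, hf⟩ n) (zz_isProduct _ _ n)
  have h2 := zz_map (fun z : B => (z : Alg F)) (fun _ _ => rfl) (⟨e0 F, he⟩ : B) ⟨f0 F, hf⟩ n
  apply zz_ne_zero (F := F) n
  rw [← h2, h1]
  rfl

end Pool.Agent.H66.CharThree
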