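import Pool.Agent.H66.Eng.Ext

set_option autoImplicit false

/-!
# Reduction to semiprime quotients and assembly (MP_1664c7_al)
-/

universe u v

namespace Pool.Agent.H66.Eng

/-- `IsProduct n z`: the element `z` is a product of exactly `n` elements of `B`,
with some arrangement of parentheses. -/
inductive IsProduct {B : Type u} [Mul B] : ℕ → B → Prop
  | single (x : B) : IsProduct 1 x
  | mul {m n : ℕ} {x y : B} : IsProduct m x → IsProduct n y → IsProduct (m + n) (x * y)

/-- `B` is nilpotent: for some `N ≥ 1` every product of `N` elements of `B`,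
with any arrangement of parentheses, vanishes. -/
def IsNilpotentAlg (B : Type u) [Mul B] [Zero B] : Prop :=
  ∃ N : ℕ, 1 ≤ N ∧ ∀ z : B, IsProduct N z → z = 0

section quot

variable {F : Type u} [Field F] {A : Type v} [NonUnitalNonAssocRing A] [Module F A]
  [IsScalarTower F A A] [SMulCommClass F A A]

/-- Two-sided ideals which are subspaces. -/
def SId (I : Submodule F A) : Prop := ∀ x ∈ I, ∀ y : A, x * y ∈ I ∧ y * x ∈ I

/-- The quotient algebra by a two-sided ideal. -/
def Quo (I : Submodule F A) (_h : SId I) : Type v := A ⧸ I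

variable {I : Submodule F A} {h : SId I}

instance : AddCommGroup (Quo I h) := inferInstanceAs (AddCommGroup (A ⧸ I))
instance : Module F (Quo I h) := inferInstanceAs (Module F (A ⧸ I))

/-- Projection. -/
def qmk (h : SId I) : A →ₗ[F] Quo I h := I.mkQ

theorem qmk_surj (h : SId I) : Function.Surjective (qmk h) := I.mkQ_surjective

theorem qmk_eq_zero (h : SId I) (a : A) : qmk h a = 0 ↔ a ∈ I :=
  Submodule.Quotient.mk_eq_zero I

theorem qmk_eq (h : SId I) (a b : A) : qmk h a = qmk h b ↔ a - b ∈ I :=
  Submodule.Quotient.eq I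

instance : Mul (Quo I h) :=
  ⟨fun x y => Quotient.map₂ (· * ·) (by
    intro a b hab c d hcd
    have hab' : a - b ∈ I := (Submodule.quotientRel_def I).mp hab
    have hcd' : c - d ∈ I := (Submodule.quotientRel_def I).mp hcd
    refine (Submodule.quotientRel_def I).mpr ?_
    have e : a * c - b * d = (a - b) * c + b * (c - d) := by
      rw [sub_mul, mul_sub]; abel
    change a * c - b * d ∈ I
    rw [e]
    exact I.add_mem (h _ hab' c).1 (h _ hcd' b).2) x y⟩

theorem qmk_mul (h : SId I) (a b : A) : qmk h (a * b) = qmk h a * qmk h b := rfl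

instance : NonUnitalNonAssocRing (Quo I h) :=
  { (inferInstance : AddCommGroup (Quo I h)) with
    mul := (· * ·)
    left_distrib := by
      intro x y z
      obtain ⟨x, rfl⟩ := qmk_surj h x
      obtain ⟨y, rfl⟩ := qmk_surj h y
      obtain ⟨z, rfl⟩ := qmk_surj h z
      change qmk h x * (qmk h y + qmk h z) = qmk h x * qmk h y + qmk h x * qmk h z
      rw [← map_add, ← qmk_mul, ← qmk_mul, ← qmk_mul, mul_add, map_add]
    right_distrib := by
      intro x y z
      obtain ⟨x, rfl⟩ := qmk_surj h x
      obtain ⟨y, rfl⟩ := qmk_surj h y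
      obtain ⟨z, rfl⟩ := qmk_surj h z
      change (qmk h x + qmk h y) * qmk h z = qmk h x * qmk h z + qmk h y * qmk h z
      rw [← map_add, ← qmk_mul, ← qmk_mul, ← qmk_mul, add_mul, map_add]
    zero_mul := by
      intro x
      obtain ⟨x, rfl⟩ := qmk_surj h x
      change (0 : Quo I h) * qmk h x = 0
      rw [← map_zero (qmk h), ← qmk_mul, zero_mul]
    mul_zero := by
      intro x
      obtain ⟨x, rfl⟩ := qmk_surj h x
      change qmk h x * (0 : Quo I h) = 0
      rw [← map_zero (qmk h), ← qmk_mul, mul_zero] }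

instance : IsScalarTower F (Quo I h) (Quo I h) :=
  ⟨fun r x y => by
    obtain ⟨x, rfl⟩ := qmk_surj h x
    obtain ⟨y, rfl⟩ := qmk_surj h y
    change (r • qmk h x) * qmk h y = r • (qmk h x * qmk h y)
    rw [← map_smul, ← qmk_mul, ← qmk_mul, smul_mul_assoc, map_smul]⟩

instance : SMulCommClass F (Quo I h) (Quo I h) :=
  ⟨fun r x y => by
    obtain ⟨x, rfl⟩ := qmk_surj h x
    obtain ⟨y, rfl⟩ := qmk_surj h y
    change r • (qmk h x * qmk h y) = qmk h x * (r • qmk h y)
    rw [← map_smul, ← qmk_mul, ← qmk_mul, mul_smul_comm, map_smul]⟩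

/-- The quotient is again an anticommutative 3-Engel algebra. -/
theorem E3.quo (hA : E3 A) (h2 : (2 : F) ≠ 0) (h3 : (3 : F) ≠ 0) (h : SId I) :
    E3 (Quo I h) where
  sq := by
    intro x
    obtain ⟨x, rfl⟩ := qmk_surj h x
    rw [← qmk_mul, hA.sq, map_zero]
  eng := by
    intro x y
    obtain ⟨x, rfl⟩ := qmk_surj h x
    obtain ⟨y, rfl⟩ := qmk_surj h y
    rw [← qmk_mul, ← qmk_mul, ← qmk_mul, hA.eng, map_zero]
  h2 := by
    intro x hx
    have hx' : (2 : F) • x = 0 := by
      rw [← hx, ← Nat.cast_smul_eq_nsmul F]; norm_num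
    exact (smul_eq_zero.mp hx').resolve_left h2
  h3 := by
    intro x hx
    have hx' : (3 : F) • x = 0 := by
      rw [← hx, ← Nat.cast_smul_eq_nsmul F]; norm_num
    exact (smul_eq_zero.mp hx').resolve_left h3

end quot

section semi

variable {F : Type u} [Field F] {B : Type v} [NonUnitalNonAssocRing B] [Module F B]
  [IsScalarTower F B B] [SMulCommClass F B B]

/-- No nonzero ideal with square zero. -/
def Semi (F : Type u) [Field F] (B : Type v) [NonUnitalNonAssocRing B] [Module F B] : Prop :=
  ∀ J : Submodule F B, SId J → (∀ x ∈ J, ∀ y ∈ J, x * y = 0) → J = ⊥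

theorem CP.pred {c : B} {n : ℕ} {z : B} (h : CP c n z) : ∀ m, m ≤ n → CP c m z := by
  induction h with
  | elt x =>
    intro m hm
    have : m = 0 := by omega
    subst this
    exact CP.elt x
  | gen =>
    intro m hm
    rcases Nat.eq_zero_or_pos m with rfl | hm'
    · exact CP.elt c
    · have : m = 1 := by omega
      subst this
      exact CP.gen
  | mul _ _ ih1 ih2 =>
    rename_i m1 n1 x y _ _
    intro m hm
    rcases Nat.lt_or_ge m m1 with hlt | hge
    · have := (ih1 m (by omega)).mul (ih2 0 (by omega))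
      simpa using this
    · have := (ih1 m1 (by omega)).mul (ih2 (m - m1) (by omega))
      have e : m1 + (m - m1) = m := by omega
      rwa [e] at this

/-- span of products with at least `n` factors `c` -/
def cspan (F : Type u) [Field F] {B : Type v} [NonUnitalNonAssocRing B] [Module F B]
    (c : B) (n : ℕ) : Submodule F B := Submodule.span F {z | CP c n z}

theorem span_mul_zero {S T : Set B} (h : ∀ x ∈ S, ∀ y ∈ T, x * y = 0) :
    ∀ x ∈ Submodule.span F S, ∀ y ∈ Submodule.span F T, x * y = 0 := by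
  intro x hx y hy
  induction hx using Submodule.span_induction with
  | mem x hx =>
    induction hy using Submodule.span_induction with
    | mem y hy => exact h x hx y hy
    | zero => rw [mul_zero]
    | add y y' _ _ h1 h2 => rw [mul_add, h1, h2, add_zero]
    | smul r y _ h1 => rw [mul_smul_comm, h1, smul_zero]
  | zero => rw [zero_mul]
  | add x x' _ _ h1 h2 => rw [add_mul, h1, h2, add_zero]
  | smul r x _ h1 => rw [smul_mul_assoc, h1, smul_zero]

theorem span_mul_mem {S T : Set B} {P : Submodule F B} (h : ∀ x ∈ S, ∀ y ∈ T, x * y ∈ P) :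
    ∀ x ∈ Submodule.span F S, ∀ y ∈ Submodule.span F T, x * y ∈ P := by
  intro x hx y hy
  induction hx using Submodule.span_induction with
  | mem x hx =>
    induction hy using Submodule.span_induction with
    | mem y hy => exact h x hx y hy
    | zero => rw [mul_zero]; exact P.zero_mem
    | add y y' _ _ h1 h2 => rw [mul_add]; exact P.add_mem h1 h2
    | smul r y _ h1 => rw [mul_smul_comm]; exact P.smul_mem r h1
  | zero => rw [zero_mul]; exact P.zero_mem
  | add x x' _ _ h1 h2 => rw [add_mul]; exact P.add_mem h1 h2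
  | smul r x _ h1 => rw [smul_mul_assoc]; exact P.smul_mem r h1

theorem cspan_ideal (c : B) (n : ℕ) : SId (cspan F c n) := by
  intro x hx y
  have hy : y ∈ Submodule.span F {z : B | CP c 0 z} := Submodule.subset_span (CP.elt y)
  constructor
  · refine span_mul_mem (F := F) (S := {z : B | CP c n z}) (T := {z : B | CP c 0 z})
      (P := cspan F c n) ?_ x hx y hy
    intro a ha b hb
    exact Submodule.subset_span (by simpa using ha.mul hb)
  · refine span_mul_mem (F := F) (S := {z : B | CP c 0 z}) (T := {z : B | CP c n z})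
      (P := cspan F c n) ?_ y hy x hx
    intro a ha b hb
    exact Submodule.subset_span (by simpa using ha.mul hb)

theorem thick_zero (hsemi : Semi F B) {c : B} (h3 : ∀ z : B, CP c 3 z → z = 0) : c = 0 := by
  have h2 : cspan F c 2 = ⊥ := by
    refine hsemi _ (cspan_ideal c 2) ?_
    refine span_mul_zero ?_
    intro x hx y hy
    exact h3 _ ((CP.mul hx hy).pred 3 (by norm_num))
  have h1 : cspan F c 1 = ⊥ := by
    refine hsemi _ (cspan_ideal c 1) ?_
    refine span_mul_zero ?_
    intro x hx y hy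
    have : x * y ∈ cspan F c 2 := Submodule.subset_span (CP.mul hx hy)
    rw [h2] at this
    simpa using this
  have : c ∈ cspan F c 1 := Submodule.subset_span CP.gen
  rw [h1] at this
  simpa using this

theorem semi_trivial (hT : TargetT B) (hI : TargetI B) (hII : TargetII B) (hsemi : Semi F B) :
    ∀ a : B, a = 0 := by
  have hthick : ∀ c : B, Thick c → c = 0 := fun c hc => thick_zero hsemi (hT c hc)
  refine hII ?_
  intro c hc
  refine hthick c ⟨hc, ?_⟩
  intro x y
  exact hthick _ (hI c hc x y)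

end semi

section zorn

variable {F : Type u} [Field F] {A : Type v} [NonUnitalNonAssocRing A] [Module F A]
  [IsScalarTower F A A] [SMulCommClass F A A]

/-- `A / I` is nilpotent (`X` generates `A`). -/
def NilMod (X : Set A) (I : Submodule F A) : Prop :=
  ∃ K, ∀ n, K ≤ n → ∀ w, Mon X n w → w ∈ I

theorem Mon.map {A' : Type*} [NonUnitalNonAssocRing A'] (f : A → A')
    (hf : ∀ x y, f (x * y) = f x * f y) {X : Set A} {n : ℕ} {w : A}
    (h : Mon X n w) : Mon (f '' X) n (f w) := by
  induction h with
  | gen hx => exact Mon.gen ⟨_, hx, rfl⟩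
  | mul _ _ h1 h2 => rw [hf]; exact h1.mul h2

theorem Mon.lift {A' : Type*} [NonUnitalNonAssocRing A'] (f : A → A')
    (hf : ∀ x y, f (x * y) = f x * f y) {X : Set A} {n : ℕ} {w' : A'}
    (h : Mon (f '' X) n w') : ∃ w, Mon X n w ∧ f w = w' := by
  induction h with
  | gen hx =>
    obtain ⟨x, hx, rfl⟩ := hx
    exact ⟨x, Mon.gen hx, rfl⟩
  | mul _ _ h1 h2 =>
    obtain ⟨a, ha, rfl⟩ := h1
    obtain ⟨b, hb, rfl⟩ := h2
    exact ⟨a * b, ha.mul hb, hf a b⟩

/-- It is enough to control finitely many degrees. -/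
theorem nilMod_of_finite {X : Set A} {I : Submodule F A} (hI : SId I) {K : ℕ} (hK : 1 ≤ K)
    (h : ∀ n, K ≤ n → n < 2 * K → ∀ w, Mon X n w → w ∈ I) :
    ∀ n, K ≤ n → ∀ w, Mon X n w → w ∈ I := by
  intro n
  induction n using Nat.strong_induction_on with
  | _ n ih =>
    intro hn w hw
    rcases Nat.lt_or_ge n (2 * K) with hlt | hge
    · exact h n hn hlt w hw
    · rcases hw.cases' with ⟨h1, _⟩ | ⟨i, j, x, y, hi, hj, hij, hx, hy, rfl⟩
      · omega
      · rcases Nat.lt_or_ge i K with hiK | hiK
        · exact (hI y (ih j (by omega) (by omega) y hy) x).2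
        · exact (hI x (ih i (by omega) hiK x hx) y).1

theorem exists_max {X : Set A} (hX : X.Finite) {I₀ : Submodule F A} (hI₀ : SId I₀)
    (hn : ¬ NilMod X I₀) :
    ∃ I : Submodule F A, SId I ∧ ¬ NilMod X I ∧
      ∀ J : Submodule F A, SId J → I ≤ J → ¬ NilMod X J → J = I := by
  have hz := zorn_le_nonempty₀ {I : Submodule F A | SId I ∧ ¬ NilMod X I} ?_ I₀ ⟨hI₀, hn⟩
  · obtain ⟨I, _, hmax⟩ := hz
    refine ⟨I, hmax.prop.1, hmax.prop.2, ?_⟩
    intro J hJ hIJ hJn
    exact le_antisymm (hmax.le_of_ge ⟨hJ, hJn⟩ hIJ) hIJ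
  · intro c hc hchain I₁ hI₁
    have hne : c.Nonempty := ⟨I₁, hI₁⟩
    have hdir : DirectedOn (· ≤ ·) c := hchain.directedOn
    refine ⟨sSup c, ⟨?_, ?_⟩, fun I hI => le_sSup hI⟩
    · intro x hx y
      rw [Submodule.mem_sSup_of_directed hne hdir] at hx
      obtain ⟨I, hIc, hxI⟩ := hx
      have := (hc hIc).1 x hxI y
      exact ⟨le_sSup hIc this.1, le_sSup hIc this.2⟩
    · rintro ⟨K0, hK0⟩
      set K := K0 + 1 with hKdef
      have hK : ∀ n, K ≤ n → ∀ w, Mon X n w → w ∈ sSup c := fun n hn => hK0 n (by omega)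
      -- the finite set of monomials of degree in [K, 2K)
      have hfin := Mon.finite_lt hX (2 * K)
      set S := {p : ℕ × A | p.1 < 2 * K ∧ Mon X p.1 p.2} with hS
      have hall : ∀ T : Set (ℕ × A), T.Finite → (∀ p ∈ T, K ≤ p.1 ∧ Mon X p.1 p.2) →
          ∃ I ∈ c, ∀ p ∈ T, p.2 ∈ I := by
        intro T hT
        induction T, hT using Set.Finite.induction_on with
        | empty => intro _; exact ⟨I₁, hI₁, by simp⟩
        | insert _ _ ih =>
          rename_i a s ha hs
          intro hp
          obtain ⟨I, hIc, hIs⟩ := ih (fun p hp' => hp p (Set.mem_insert_of_mem _ hp'))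
          have ha2 := hp a (Set.mem_insert _ _)
          have ham := hK a.1 ha2.1 a.2 ha2.2
          rw [Submodule.mem_sSup_of_directed hne hdir] at ham
          obtain ⟨I', hI'c, haI'⟩ := ham
          obtain ⟨I'', hI''c, h1, h2⟩ := hdir I hIc I' hI'c
          refine ⟨I'', hI''c, ?_⟩
          intro p hp'
          rcases Set.mem_insert_iff.mp hp' with rfl | hp'
          · exact h2 haI'
          · exact h1 (hIs p hp')
      obtain ⟨I, hIc, hIS⟩ := hall {p : ℕ × A | p ∈ S ∧ K ≤ p.1} (hfin.subset (fun p hp => hp.1))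
        (fun p hp => ⟨hp.2, hp.1.2⟩)
      refine (hc hIc).2 ⟨K, ?_⟩
      refine nilMod_of_finite (hc hIc).1 (by omega) ?_
      intro n hn1 hn2 w hw
      exact hIS (n, w) ⟨⟨hn2, hw⟩, hn1⟩

/-- The ideals of the quotient pulled back. -/
theorem comap_ideal {I : Submodule F A} (h : SId I) {J : Submodule F (Quo I h)} (hJ : SId J) :
    SId (J.comap (qmk h)) := by
  intro x hx y
  rw [Submodule.mem_comap] at hx
  constructor
  · rw [Submodule.mem_comap, qmk_mul]; exact (hJ _ hx _).1
  · rw [Submodule.mem_comap, qmk_mul]; exact (hJ _ hx _).2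

/-- Main reduction: all long monomials vanish. -/
theorem main_reduction (h2 : (2 : F) ≠ 0) (h3 : (3 : F) ≠ 0) (hA : E3 A)
    (hT : ∀ (B : Type v) [NonUnitalNonAssocRing B], E3 B → TargetT B)
    (hI : ∀ (B : Type v) [NonUnitalNonAssocRing B], E3 B → TargetI B)
    (hII : ∀ (B : Type v) [NonUnitalNonAssocRing B], E3 B → TargetII B)
    {X : Set A} (hX : X.Finite) : ∃ K, ∀ n, K ≤ n → ∀ w, Mon X n w → w = 0 := by
  by_contra hcon
  have hbot : ¬ NilMod X (⊥ : Submodule F A) := by
    intro h
    apply hcon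
    obtain ⟨K, hK⟩ := h
    exact ⟨K, fun n hn w hw => by simpa using hK n hn w hw⟩
  have hbotI : SId (⊥ : Submodule F A) := by
    intro x hx y
    have : x = 0 := by simpa using hx
    subst this
    simp
  obtain ⟨I, hIid, hIn, hmax⟩ := exists_max hX hbotI hbot
  have hE : E3 (Quo I hIid) := hA.quo h2 h3 hIid
  have hsemi : Semi F (Quo I hIid) := by
    intro J hJ hJJ
    by_contra hJne
    -- the preimage is strictly larger
    have hle : I ≤ J.comap (qmk hIid) := by
      intro x hx
      rw [Submodule.mem_comap, (qmk_eq_zero hIid x).mpr hx]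
      exact J.zero_mem
    have hnil : NilMod X (J.comap (qmk hIid)) := by
      by_contra hnn
      have heq := hmax _ (comap_ideal hIid hJ) hle hnn
      apply hJne
      rw [eq_bot_iff]
      intro y hy
      obtain ⟨y, rfl⟩ := qmk_surj hIid y
      have : y ∈ J.comap (qmk hIid) := hy
      rw [heq] at this
      simpa using (qmk_eq_zero hIid y).mpr this
    obtain ⟨K, hK⟩ := hnil
    have hJid : IsId J.toAddSubgroup := fun x hx y => hJ x hx y
    obtain ⟨K', hK'⟩ := extension hE (hX.image (qmk hIid)) hJid hJJ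
      ⟨K, by
        intro n hn w hw
        obtain ⟨w, hw', rfl⟩ := Mon.lift (qmk hIid) (qmk_mul hIid) hw
        exact hK n hn w hw'⟩
    apply hIn
    refine ⟨K', ?_⟩
    intro n hn w hw
    rw [← qmk_eq_zero hIid]
    exact hK' n hn _ (Mon.map (qmk hIid) (qmk_mul hIid) hw)
  have htriv := semi_trivial (F := F) (hT _ hE) (hI _ hE) (hII _ hE) hsemi
  apply hIn
  refine ⟨0, ?_⟩
  intro n _ w _
  rw [← qmk_eq_zero hIid]
  exact htriv _

/-- span of monomials of degree at least `n` -/
def mspan (F : Type u) [Field F] {A : Type v} [NonUnitalNonAssocRing A] [Module F A]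
    (X : Set A) (n : ℕ) : Submodule F A := Submodule.span F {w | ∃ m, n ≤ m ∧ Mon X m w}

theorem mspan_mul {X : Set A} {m n : ℕ} {x y : A} (hx : x ∈ mspan F X m) (hy : y ∈ mspan F X n) :
    x * y ∈ mspan F X (m + n) := by
  refine span_mul_mem ?_ x hx y hy
  rintro a ⟨i, hi, ha⟩ b ⟨j, hj, hb⟩
  exact Submodule.subset_span ⟨i + j, by omega, ha.mul hb⟩

theorem adjoin_le_mspan (X : Set A) (x : A) (hx : x ∈ NonUnitalAlgebra.adjoin F X) :
    x ∈ mspan F X 1 := by
  induction hx using NonUnitalAlgebra.adjoin_induction with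
  | mem x hx => exact Submodule.subset_span ⟨1, le_rfl, Mon.gen hx⟩
  | add x y _ _ h1 h2 => exact (mspan F X 1).add_mem h1 h2
  | zero => exact (mspan F X 1).zero_mem
  | mul x y _ _ h1 h2 =>
    have := mspan_mul h1 h2
    refine Submodule.span_mono ?_ this
    rintro w ⟨m, hm, hw⟩
    exact ⟨m, by omega, hw⟩
  | smul r x _ h1 => exact (mspan F X 1).smul_mem r h1

/-- Local nilpotency from the three targets. -/
theorem locally_nilpotent (h2 : (2 : F) ≠ 0) (h3 : (3 : F) ≠ 0)
    (sq : ∀ x : A, x * x = 0) (eng : ∀ x y : A, ((x * y) * y) * y = 0)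
    (hT : ∀ (B : Type v) [NonUnitalNonAssocRing B], E3 B → TargetT B)
    (hI : ∀ (B : Type v) [NonUnitalNonAssocRing B], E3 B → TargetI B)
    (hII : ∀ (B : Type v) [NonUnitalNonAssocRing B], E3 B → TargetII B)
    (s : Finset A) : IsNilpotentAlg (NonUnitalAlgebra.adjoin F (s : Set A)) := by
  have hA : E3 A :=
    { sq := sq
      eng := eng
      h2 := by
        intro x hx
        have hx' : (2 : F) • x = 0 := by
          rw [← hx, ← Nat.cast_smul_eq_nsmul F]; norm_num
        exact (smul_eq_zero.mp hx').resolve_left h2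
      h3 := by
        intro x hx
        have hx' : (3 : F) • x = 0 := by
          rw [← hx, ← Nat.cast_smul_eq_nsmul F]; norm_num
        exact (smul_eq_zero.mp hx').resolve_left h3 }
  obtain ⟨K, hK⟩ := main_reduction h2 h3 hA hT hI hII (X := (s : Set A)) s.finite_toSet
  refine ⟨K + 1, by omega, ?_⟩
  have key : ∀ (n : ℕ) (z : NonUnitalAlgebra.adjoin F (s : Set A)), IsProduct n z →
      (z : A) ∈ mspan F (s : Set A) n := by
    intro n z hz
    induction hz with
    | single x => exact adjoin_le_mspan _ _ x.2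
    | mul _ _ h1 h2 => exact mspan_mul h1 h2
  intro z hz
  have hmem := key _ z hz
  have hzero : mspan F (s : Set A) (K + 1) ≤ ⊥ := by
    refine Submodule.span_le.mpr ?_
    rintro w ⟨m, hm, hw⟩
    simpa using hK m (by omega) w hw
  have := hzero hmem
  apply Subtype.ext
  simpa using this

end zorn

end Pool.Agent.H66.Eng
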